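import Pool.Agent.R794.Ho

set_option autoImplicit false

namespace Pool.Agent.R794.Gerbe

open CategoryTheory Simplicial Opposite Limits
open Pool.Agent.R794.HoTT
open SSet.Truncated (HomotopyCategory)

theorem fillGen {E S : SSet.{0}} {p : E ⟶ S} (hp : IsRightFibration p) {n : ℕ}
    (i : Fin (n + 3)) (hi : 0 < i) (σ : Fin (n + 3) → E _⦋n + 1⦌)
    (hσ : ∀ (j k : Fin (n + 3)) (_ : j ≠ i) (_ : k ≠ i) (hjk : j < k),
      E.δ (k.pred (Fin.ne_zero_of_lt hjk)) (σ j) = E.δ (j.castPred (Fin.ne_last_of_lt hjk)) (σ k))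
    (s : S _⦋n + 2⦌) (hs : ∀ j, j ≠ i → S.δ j s = p.app _ (σ j)) :
    ∃ τ : E _⦋n + 2⦌, p.app _ τ = s ∧ ∀ j, j ≠ i → E.δ j τ = σ j := by
  let f : ∀ (j : Fin (n + 3)) (_ : j ≠ i), Δ[n + 1] ⟶ E := fun j _ => SSet.yonedaEquiv.symm (σ j)
  have hf : SSet.horn.IsCompatible f := by
    rw [SSet.horn.isCompatible_iff]
    intro j k hj hk hjk
    simp only [f]
    rw [SSet.stdSimplex.δ_comp_yonedaEquiv_symm, SSet.stdSimplex.δ_comp_yonedaEquiv_symm,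
      hσ j k hj hk hjk]
  have hlift := hp (n + 1) i hi
  have sq : CommSq hf.desc (SSet.horn (n + 2) i).ι p (SSet.yonedaEquiv.symm s) := ⟨by
    apply SSet.horn.hom_ext'
    intro j hj
    rw [SSet.horn.IsCompatible.ι_desc_assoc, SSet.horn.ι_ι_assoc,
      SSet.stdSimplex.δ_comp_yonedaEquiv_symm, hs j hj, SSet.yonedaEquiv_symm_comp]⟩
  obtain ⟨⟨l⟩⟩ := hlift.sq_hasLift sq
  refine ⟨SSet.yonedaEquiv l.l, ?_, ?_⟩
  · rw [← SSet.yonedaEquiv_comp, l.fac_right, Equiv.apply_symm_apply]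
  · intro j hj
    rw [← SSet.stdSimplex.yonedaEquiv_δ_comp, ← SSet.horn.ι_ι i j hj, Category.assoc, l.fac_left,
      SSet.horn.IsCompatible.ι_desc, Equiv.apply_symm_apply]

theorem pairs4 : ∀ j k : Fin 4, j < k → (j = 0 ∧ k = 1) ∨ (j = 0 ∧ k = 2) ∨ (j = 0 ∧ k = 3) ∨
    (j = 1 ∧ k = 2) ∨ (j = 1 ∧ k = 3) ∨ (j = 2 ∧ k = 3) := by decide
theorem four : ∀ j : Fin 4, j = 0 ∨ j = 1 ∨ j = 2 ∨ j = 3 := by decide

section base

variable {E : SSet.{0}} (p : E ⟶ Δ[1])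

/-- the height of a vertex -/
def ht (x : E _⦋0⦌) : Fin 2 := SSet.stdSimplex.asOrderHom (p.app (op ⦋0⦌) x) 0

/-- the heights of the vertices of a simplex -/
def hs {n : ℕ} (y : E _⦋n⦌) : Fin (n + 1) →o Fin 2 := SSet.stdSimplex.asOrderHom (p.app (op ⦋n⦌) y)

theorem hs_δ {n : ℕ} (y : E _⦋n + 1⦌) (j : Fin (n + 2)) (a : Fin (n + 1)) :
    hs p (E.δ j y) a = hs p y (j.succAbove a) := by
  have h := NatTrans.naturality_apply p (SimplexCategory.δ j).op y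
  exact congrArg (fun z : Δ[1].obj (op ⦋n⦌) => SSet.stdSimplex.asOrderHom z a) h

theorem ht_src {x y : E _⦋0⦌} (e : SSet.Edge x y) : hs p e.edge 0 = ht p x := by
  have h := hs_δ p e.edge 1 0
  rw [e.src_eq] at h
  exact h.symm

theorem ht_tgt {x y : E _⦋0⦌} (e : SSet.Edge x y) : hs p e.edge 1 = ht p y := by
  have h := hs_δ p e.edge 0 0
  rw [e.tgt_eq] at h
  exact h.symm

theorem ht_le {x y : E _⦋0⦌} (e : SSet.Edge x y) : ht p x ≤ ht p y := by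
  rw [← ht_src p e, ← ht_tgt p e]
  exact (hs p e.edge).monotone (by decide)

theorem ht0 {x y z : E _⦋0⦌} {e : SSet.Edge x y} {e' : SSet.Edge y z} {e'' : SSet.Edge x z}
    (h : SSet.Edge.CompStruct e e' e'') : hs p h.simplex 0 = ht p x := by
  have h1 := hs_δ p h.simplex 2 0
  rw [h.d₂, ht_src] at h1
  exact h1.symm

theorem ht1 {x y z : E _⦋0⦌} {e : SSet.Edge x y} {e' : SSet.Edge y z} {e'' : SSet.Edge x z}
    (h : SSet.Edge.CompStruct e e' e'') : hs p h.simplex 1 = ht p y := by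
  have h1 := hs_δ p h.simplex 2 1
  rw [h.d₂, ht_tgt] at h1
  exact h1.symm

theorem ht2 {x y z : E _⦋0⦌} {e : SSet.Edge x y} {e' : SSet.Edge y z} {e'' : SSet.Edge x z}
    (h : SSet.Edge.CompStruct e e' e'') : hs p h.simplex 2 = ht p z := by
  have h1 := hs_δ p h.simplex 0 1
  rw [h.d₀, ht_tgt] at h1
  exact h1.symm

theorem base_eq {n : ℕ} (φ : Fin (n + 2) →o Fin 2) (j : Fin (n + 2)) (y : E _⦋n⦌)
    (h : ∀ a, hs p y a = φ (j.succAbove a)) :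
    (Δ[1] : SSet.{0}).δ j (SSet.stdSimplex.objMk φ) = p.app _ y := by
  apply SSet.stdSimplex.ext
  intro a
  exact (h a).symm

variable {p}

/-- filling `Λ[2, 2]` -/
theorem fillR (hp : IsRightFibration p) {x y z : E _⦋0⦌} (a : SSet.Edge x z) (b : SSet.Edge y z)
    (h : ht p x ≤ ht p y) : ∃ c : SSet.Edge x y, Nonempty (SSet.Edge.CompStruct c b a) := by
  let φ : Fin 3 →o Fin 2 := ⟨![ht p x, ht p y, ht p z], by
    have h1 := ht_le p b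
    have h2 := h.trans h1
    intro i j hij
    fin_cases i <;> fin_cases j <;> simp_all⟩
  obtain ⟨τ, -, hτ⟩ := fillGen hp (n := 0) 2 (by decide) ![b.edge, a.edge, a.edge] (by
    intro j k hj hk hjk
    obtain ⟨rfl, rfl⟩ : j = 0 ∧ k = 1 := by
      revert hj hk hjk
      revert j k
      decide
    exact b.tgt_eq.trans a.tgt_eq.symm) (SSet.stdSimplex.objMk φ) (by
    intro j hj
    obtain rfl | rfl := ne32 j hj
    · apply base_eq
      intro d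
      fin_cases d
      · exact ht_src p b
      · exact ht_tgt p b
    · apply base_eq
      intro d
      fin_cases d
      · exact ht_src p a
      · exact ht_tgt p a)
  have h0 := hτ 0 (by decide)
  have h1 := hτ 1 (by decide)
  have e1 : E.δ 1 (E.δ 2 τ) = x := by
    have h2 := E.δ_comp_δ_apply (i := 1) (j := 1) (by decide) τ
    exact h2.trans ((congrArg (E.δ 1) h1).trans a.src_eq)
  have e2 : E.δ 0 (E.δ 2 τ) = y := by
    have h2 := E.δ_comp_δ_apply (i := 0) (j := 1) (by decide) τ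
    exact h2.trans ((congrArg (E.δ 1) h0).trans b.src_eq)
  exact ⟨SSet.Edge.mk (E.δ 2 τ) e1 e2, ⟨SSet.Edge.CompStruct.mk τ rfl h0 h1⟩⟩

/-- filling `Λ[2, 1]` -/
theorem fillI (hp : IsRightFibration p) {x y z : E _⦋0⦌} (a : SSet.Edge x y) (b : SSet.Edge y z) :
    ∃ c : SSet.Edge x z, Nonempty (SSet.Edge.CompStruct a b c) := by
  let φ : Fin 3 →o Fin 2 := ⟨![ht p x, ht p y, ht p z], by
    have h := ht_le p a
    have h1 := ht_le p b
    have h2 := h.trans h1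
    intro i j hij
    fin_cases i <;> fin_cases j <;> simp_all⟩
  obtain ⟨τ, -, hτ⟩ := fillGen hp (n := 0) 1 (by decide) ![b.edge, a.edge, a.edge] (by
    intro j k hj hk hjk
    obtain ⟨rfl, rfl⟩ : j = 0 ∧ k = 2 := by
      revert hj hk hjk
      revert j k
      decide
    exact b.src_eq.trans a.tgt_eq.symm) (SSet.stdSimplex.objMk φ) (by
    intro j hj
    obtain rfl | rfl := ne31 j hj
    · apply base_eq
      intro d
      fin_cases d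
      · exact ht_src p b
      · exact ht_tgt p b
    · apply base_eq
      intro d
      fin_cases d
      · exact ht_src p a
      · exact ht_tgt p a)
  have h0 := hτ 0 (by decide)
  have h1 := hτ 2 (by decide)
  have e1 : E.δ 1 (E.δ 1 τ) = x := by
    have h2 := E.δ_comp_δ_apply (i := 1) (j := 1) (by decide) τ
    exact h2.symm.trans ((congrArg (E.δ 1) h1).trans a.src_eq)
  have e2 : E.δ 0 (E.δ 1 τ) = z := by
    have h2 := E.δ_comp_δ_apply (i := 0) (j := 0) (by decide) τ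
    exact h2.trans ((congrArg (E.δ 0) h0).trans b.tgt_eq)
  exact ⟨SSet.Edge.mk (E.δ 1 τ) e1 e2, ⟨SSet.Edge.CompStruct.mk τ h1 h0 rfl⟩⟩

/-- `s` is a triangle with the given edges -/
def IsT (s : E _⦋2⦌) {x y z : E _⦋0⦌} (a : SSet.Edge x y) (b : SSet.Edge y z)
    (c : SSet.Edge x z) : Prop :=
  E.δ 2 s = a.edge ∧ E.δ 0 s = b.edge ∧ E.δ 1 s = c.edge

theorem IsT.of {x y z : E _⦋0⦌} {a : SSet.Edge x y} {b : SSet.Edge y z}
    {c : SSet.Edge x z} (h : SSet.Edge.CompStruct a b c) : IsT h.simplex a b c :=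
  ⟨h.d₂, h.d₀, h.d₁⟩

theorem IsT.comp {s : E _⦋2⦌} {x y z : E _⦋0⦌} {a : SSet.Edge x y} {b : SSet.Edge y z}
    {c : SSet.Edge x z} (h : IsT s a b c) : Nonempty (SSet.Edge.CompStruct a b c) :=
  ⟨SSet.Edge.CompStruct.mk s h.1 h.2.1 h.2.2⟩

theorem fill3 (hp : IsRightFibration p) {x₀ x₁ x₂ x₃ : E _⦋0⦌}
    (e₀₁ : SSet.Edge x₀ x₁) (e₁₂ : SSet.Edge x₁ x₂) (e₂₃ : SSet.Edge x₂ x₃)
    (e₀₂ : SSet.Edge x₀ x₂) (e₁₃ : SSet.Edge x₁ x₃) (e₀₃ : SSet.Edge x₀ x₃)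
    (i : Fin 4) (hi : 0 < i) (σ : Fin 4 → E _⦋2⦌)
    (h0 : 0 ≠ i → IsT (σ 0) e₁₂ e₂₃ e₁₃) (h1 : 1 ≠ i → IsT (σ 1) e₀₂ e₂₃ e₀₃)
    (h2 : 2 ≠ i → IsT (σ 2) e₀₁ e₁₃ e₀₃) (h3 : 3 ≠ i → IsT (σ 3) e₀₁ e₁₂ e₀₂) :
    ∃ τ : E _⦋3⦌, ∀ j, j ≠ i → E.δ j τ = σ j := by
  let φ : Fin 4 →o Fin 2 := ⟨![ht p x₀, ht p x₁, ht p x₂, ht p x₃], by
    have a1 := ht_le p e₀₁
    have a2 := ht_le p e₁₂
    have a3 := ht_le p e₂₃
    have a4 := ht_le p e₀₂
    have a5 := ht_le p e₁₃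
    have a6 := ht_le p e₀₃
    intro i j hij
    fin_cases i <;> fin_cases j <;> simp_all⟩
  have key : ∀ {x y z : E _⦋0⦌} {a : SSet.Edge x y} {b : SSet.Edge y z} {c : SSet.Edge x z}
      {s : E _⦋2⦌}, IsT s a b c → hs p s 0 = ht p x ∧ hs p s 1 = ht p y ∧ hs p s 2 = ht p z := by
    intro x y z a b c s h
    let h' : SSet.Edge.CompStruct a b c := SSet.Edge.CompStruct.mk s h.1 h.2.1 h.2.2
    exact ⟨ht0 p h', ht1 p h', ht2 p h'⟩
  obtain ⟨τ, -, hτ⟩ := fillGen hp (n := 1) i hi σ (by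
    intro j k hj hk hjk
    obtain ⟨rfl, rfl⟩ | ⟨rfl, rfl⟩ | ⟨rfl, rfl⟩ | ⟨rfl, rfl⟩ | ⟨rfl, rfl⟩ | ⟨rfl, rfl⟩ :=
      pairs4 j k hjk
    · exact (h0 hj).2.1.trans (h1 hk).2.1.symm
    · exact (h0 hj).2.2.trans (h2 hk).2.1.symm
    · exact (h0 hj).1.trans (h3 hk).2.1.symm
    · exact (h1 hj).2.2.trans (h2 hk).2.2.symm
    · exact (h1 hj).1.trans (h3 hk).2.2.symm
    · exact (h2 hj).1.trans (h3 hk).1.symm) (SSet.stdSimplex.objMk φ) (by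
    intro j hj
    obtain rfl | rfl | rfl | rfl := four j
    · apply base_eq
      obtain ⟨k0, k1, k2⟩ := key (h0 hj)
      intro d
      fin_cases d
      · exact k0
      · exact k1
      · exact k2
    · apply base_eq
      obtain ⟨k0, k1, k2⟩ := key (h1 hj)
      intro d
      fin_cases d
      · exact k0
      · exact k1
      · exact k2
    · apply base_eq
      obtain ⟨k0, k1, k2⟩ := key (h2 hj)
      intro d
      fin_cases d
      · exact k0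
      · exact k1
      · exact k2
    · apply base_eq
      obtain ⟨k0, k1, k2⟩ := key (h3 hj)
      intro d
      fin_cases d
      · exact k0
      · exact k1
      · exact k2)
  exact ⟨τ, hτ⟩

theorem fill33 (hp : IsRightFibration p) {x₀ x₁ x₂ x₃ : E _⦋0⦌}
    {e₀₁ : SSet.Edge x₀ x₁} {e₁₂ : SSet.Edge x₁ x₂} {e₂₃ : SSet.Edge x₂ x₃}
    {e₀₂ : SSet.Edge x₀ x₂} {e₁₃ : SSet.Edge x₁ x₃} {e₀₃ : SSet.Edge x₀ x₃}
    (f₀ : SSet.Edge.CompStruct e₁₂ e₂₃ e₁₃) (f₁ : SSet.Edge.CompStruct e₀₂ e₂₃ e₀₃)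
    (f₂ : SSet.Edge.CompStruct e₀₁ e₁₃ e₀₃) :
    Nonempty (SSet.Edge.CompStruct e₀₁ e₁₂ e₀₂) := by
  obtain ⟨τ, hτ⟩ := fill3 hp e₀₁ e₁₂ e₂₃ e₀₂ e₁₃ e₀₃ 3 (by decide)
    ![f₀.simplex, f₁.simplex, f₂.simplex, f₀.simplex] (fun _ => .of f₀) (fun _ => .of f₁)
    (fun _ => .of f₂) (fun h => absurd rfl h)
  refine ⟨SSet.Edge.CompStruct.mk (E.δ 3 τ) ?_ ?_ ?_⟩
  · exact (E.δ_comp_δ_apply (i := 2) (j := 2) (by decide) τ).trans
      ((congrArg (E.δ 2) (hτ 2 (by decide))).trans f₂.d₂)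
  · exact (E.δ_comp_δ_apply (i := 0) (j := 2) (by decide) τ).trans
      ((congrArg (E.δ 2) (hτ 0 (by decide))).trans f₀.d₂)
  · exact (E.δ_comp_δ_apply (i := 1) (j := 2) (by decide) τ).trans
      ((congrArg (E.δ 2) (hτ 1 (by decide))).trans f₁.d₂)

theorem fill31 (hp : IsRightFibration p) {x₀ x₁ x₂ x₃ : E _⦋0⦌}
    {e₀₁ : SSet.Edge x₀ x₁} {e₁₂ : SSet.Edge x₁ x₂} {e₂₃ : SSet.Edge x₂ x₃}
    {e₀₂ : SSet.Edge x₀ x₂} {e₁₃ : SSet.Edge x₁ x₃} {e₀₃ : SSet.Edge x₀ x₃}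
    (f₃ : SSet.Edge.CompStruct e₀₁ e₁₂ e₀₂) (f₀ : SSet.Edge.CompStruct e₁₂ e₂₃ e₁₃)
    (f₂ : SSet.Edge.CompStruct e₀₁ e₁₃ e₀₃) :
    Nonempty (SSet.Edge.CompStruct e₀₂ e₂₃ e₀₃) := by
  obtain ⟨τ, hτ⟩ := fill3 hp e₀₁ e₁₂ e₂₃ e₀₂ e₁₃ e₀₃ 1 (by decide)
    ![f₀.simplex, f₀.simplex, f₂.simplex, f₃.simplex] (fun _ => .of f₀) (fun h => absurd rfl h)
    (fun _ => .of f₂) (fun _ => .of f₃)
  refine ⟨SSet.Edge.CompStruct.mk (E.δ 1 τ) ?_ ?_ ?_⟩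
  · exact (E.δ_comp_δ_apply (i := 1) (j := 2) (by decide) τ).symm.trans
      ((congrArg (E.δ 1) (hτ 3 (by decide))).trans f₃.d₁)
  · exact (E.δ_comp_δ_apply (i := 0) (j := 0) (by decide) τ).trans
      ((congrArg (E.δ 0) (hτ 0 (by decide))).trans f₀.d₀)
  · exact (E.δ_comp_δ_apply (i := 1) (j := 1) (by decide) τ).symm.trans
      ((congrArg (E.δ 1) (hτ 2 (by decide))).trans f₂.d₁)

theorem fill32 (hp : IsRightFibration p) {x₀ x₁ x₂ x₃ : E _⦋0⦌}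
    {e₀₁ : SSet.Edge x₀ x₁} {e₁₂ : SSet.Edge x₁ x₂} {e₂₃ : SSet.Edge x₂ x₃}
    {e₀₂ : SSet.Edge x₀ x₂} {e₁₃ : SSet.Edge x₁ x₃} {e₀₃ : SSet.Edge x₀ x₃}
    (f₃ : SSet.Edge.CompStruct e₀₁ e₁₂ e₀₂) (f₀ : SSet.Edge.CompStruct e₁₂ e₂₃ e₁₃)
    (f₁ : SSet.Edge.CompStruct e₀₂ e₂₃ e₀₃) :
    Nonempty (SSet.Edge.CompStruct e₀₁ e₁₃ e₀₃) := by
  obtain ⟨τ, hτ⟩ := fill3 hp e₀₁ e₁₂ e₂₃ e₀₂ e₁₃ e₀₃ 2 (by decide)
    ![f₀.simplex, f₁.simplex, f₀.simplex, f₃.simplex] (fun _ => .of f₀) (fun _ => .of f₁)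
    (fun h => absurd rfl h) (fun _ => .of f₃)
  refine ⟨SSet.Edge.CompStruct.mk (E.δ 2 τ) ?_ ?_ ?_⟩
  · exact (E.δ_comp_δ_apply (i := 2) (j := 2) (by decide) τ).symm.trans
      ((congrArg (E.δ 2) (hτ 3 (by decide))).trans f₃.d₂)
  · exact (E.δ_comp_δ_apply (i := 0) (j := 1) (by decide) τ).trans
      ((congrArg (E.δ 1) (hτ 0 (by decide))).trans f₀.d₁)
  · exact (E.δ_comp_δ_apply (i := 1) (j := 1) (by decide) τ).trans
      ((congrArg (E.δ 1) (hτ 1 (by decide))).trans f₁.d₁)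

theorem quasi (hp : IsRightFibration p) :
    SSet.Truncated.Quasicategory₂ ((SSet.truncation 2).obj E) where
  fill21 {x₀ x₁ x₂} e₀₁ e₁₂ := by
    obtain ⟨c, ⟨h⟩⟩ := fillI hp (SSet.Edge.ofTruncated e₀₁) (SSet.Edge.ofTruncated e₁₂)
    exact ⟨⟨c.toTruncated, h.toTruncated⟩⟩
  fill31 {x₀ x₁ x₂ x₃ e₀₁ e₁₂ e₂₃ e₀₂ e₁₃ e₀₃} f₃ f₀ f₂ := by
    obtain ⟨h⟩ := fill31 hp (e₀₁ := SSet.Edge.ofTruncated e₀₁) (e₁₂ := SSet.Edge.ofTruncated e₁₂)
      (e₂₃ := SSet.Edge.ofTruncated e₂₃) (e₀₂ := SSet.Edge.ofTruncated e₀₂)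
      (e₁₃ := SSet.Edge.ofTruncated e₁₃) (e₀₃ := SSet.Edge.ofTruncated e₀₃)
      (SSet.Edge.CompStruct.ofTruncated f₃) (SSet.Edge.CompStruct.ofTruncated f₀)
      (SSet.Edge.CompStruct.ofTruncated f₂)
    exact ⟨h.toTruncated⟩
  fill32 {x₀ x₁ x₂ x₃ e₀₁ e₁₂ e₂₃ e₀₂ e₁₃ e₀₃} f₃ f₀ f₁ := by
    obtain ⟨h⟩ := fill32 hp (e₀₁ := SSet.Edge.ofTruncated e₀₁) (e₁₂ := SSet.Edge.ofTruncated e₁₂)
      (e₂₃ := SSet.Edge.ofTruncated e₂₃) (e₀₂ := SSet.Edge.ofTruncated e₀₂)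
      (e₁₃ := SSet.Edge.ofTruncated e₁₃) (e₀₃ := SSet.Edge.ofTruncated e₀₃)
      (SSet.Edge.CompStruct.ofTruncated f₃) (SSet.Edge.CompStruct.ofTruncated f₀)
      (SSet.Edge.CompStruct.ofTruncated f₁)
    exact ⟨h.toTruncated⟩

/-- the functor to the category of homotopy classes of edges -/
noncomputable def toHo2 (hp : IsRightFibration p) :
    letI := quasi hp
    HoC E ⥤ SSet.Truncated.HomotopyCategory₂ ((SSet.truncation 2).obj E) :=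
  letI := quasi hp
  HomotopyCategory.lift (V := (SSet.truncation 2).obj E) (fun x => ⟨x⟩)
    (fun e => SSet.Truncated.HomotopyCategory₂.homMk e) (fun _ => rfl)
    (fun h => h.homotopyCategory₂_fac)

theorem comp_of_eq (hp : IsRightFibration p) {x y z : E _⦋0⦌} {a : SSet.Edge x y}
    {b : SSet.Edge y z} {c : SSet.Edge x z} (h : hm a ≫ hm b = hm c) :
    Nonempty (SSet.Edge.CompStruct a b c) := by
  let _ := quasi hp
  have h1 : ∀ {x y : E _⦋0⦌} (e : SSet.Edge x y), (toHo2 hp).map (hm e) =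
      SSet.Truncated.HomotopyCategory₂.homMk e.toTruncated := fun e =>
    HomotopyCategory.lift_map_homMk (V := (SSet.truncation 2).obj E)
      (fun x => SSet.Truncated.HomotopyCategory₂.mk x)
      (fun {_ _} e => SSet.Truncated.HomotopyCategory₂.homMk e) (fun _ => rfl)
      (fun {_ _ _} {_ _ _} h => h.homotopyCategory₂_fac) e.toTruncated
  have h2 := congrArg (fun f => (toHo2 hp).map f) h
  simp only [Functor.map_comp] at h2
  rw [h1, h1, h1] at h2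
  exact SSet.Truncated.Edge.CompStruct.nonempty_iff.2 h2

/-- lifting along `Λ[1, 1]` -/
theorem fill1 (hp : IsRightFibration p) (z : E _⦋0⦌) :
    ∃ (x : E _⦋0⦌) (_ : SSet.Edge x z), ht p x = 0 := by
  have hlift := hp 0 1 (by decide)
  let f : ∀ (j : Fin 2) (_ : j ≠ 1), Δ[0] ⟶ E := fun _ _ => SSet.yonedaEquiv.symm z
  have hf : SSet.horn.IsCompatible f := trivial
  let φ : Fin 2 →o Fin 2 := ⟨![0, ht p z], by
    intro i j hij
    fin_cases i <;> fin_cases j <;> simp_all⟩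
  have sq : CommSq hf.desc (SSet.horn 1 1).ι p
      (SSet.yonedaEquiv.symm (SSet.stdSimplex.objMk φ)) := ⟨by
    apply SSet.horn.hom_ext'
    intro j hj
    obtain rfl : j = 0 := by
      revert hj
      revert j
      decide
    rw [SSet.horn.IsCompatible.ι_desc_assoc, SSet.horn.ι_ι_assoc,
      SSet.stdSimplex.δ_comp_yonedaEquiv_symm, SSet.yonedaEquiv_symm_comp]
    congr 1
    symm
    apply base_eq
    intro a
    fin_cases a
    rfl⟩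
  obtain ⟨⟨l⟩⟩ := hlift.sq_hasLift sq
  let τ : E _⦋1⦌ := SSet.yonedaEquiv l.l
  have h0 : E.δ 0 τ = z := by
    rw [← SSet.stdSimplex.yonedaEquiv_δ_comp, ← SSet.horn.ι_ι 1 0 (by decide), Category.assoc,
      l.fac_left, SSet.horn.IsCompatible.ι_desc, Equiv.apply_symm_apply]
  have h1 : p.app _ τ = SSet.stdSimplex.objMk φ := by
    rw [← SSet.yonedaEquiv_comp, l.fac_right, Equiv.apply_symm_apply]
  let e : SSet.Edge (E.δ 1 τ) z := SSet.Edge.mk τ rfl h0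
  refine ⟨_, e, ?_⟩
  rw [← ht_src p e]
  exact congrArg (fun t : Δ[1].obj (op ⦋1⦌) => SSet.stdSimplex.asOrderHom t 0) h1

theorem rf_over_initial (hp : IsRightFibration p) (U : HoC E) :
    ∃ X : Over U, Nonempty (IsInitial X) := by
  obtain ⟨z, rfl⟩ := mk_rep U
  obtain ⟨x, u, hx⟩ := fill1 hp z
  have hV : ∀ {x₀ x₁ x₂ : E _⦋0⦌} (e₀₁ : SSet.Edge x₀ x₁) (e₁₂ : SSet.Edge x₁ x₂),
      ∃ e₀₂ : SSet.Edge x₀ x₂, Nonempty (SSet.Edge.CompStruct e₀₁ e₁₂ e₀₂) := fun a b => fillI hp a b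
  have hex : ∀ Y : Over (mk z), ∃ (y : E _⦋0⦌) (hy : Y.left = mk y) (μ : SSet.Edge y z)
      (c : SSet.Edge x y), Y.hom = eqToHom hy ≫ hm μ ∧ Nonempty (SSet.Edge.CompStruct c μ u) := by
    intro Y
    obtain ⟨y, hy⟩ := mk_rep Y.left
    obtain ⟨μ, hμ⟩ := exists_edge hV (eqToHom hy.symm ≫ Y.hom)
    obtain ⟨c, hc⟩ := fillR hp u μ (by rw [hx]; exact Fin.zero_le _)
    exact ⟨y, hy, μ, c, by rw [← hμ]; simp, hc⟩
  choose y hy μ c hμ hc using hex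
  refine ⟨Over.mk (hm u), ⟨IsInitial.ofUniqueHom
    (fun Y => Over.homMk (hm (c Y) ≫ eqToHom (hy Y).symm) ?_) ?_⟩⟩
  · rw [hμ Y]
    simp only [Category.assoc, eqToHom_trans_assoc, eqToHom_refl, Category.id_comp]
    exact hm_comp (hc Y).some
  · intro Y m
    ext
    change m.left = hm (c Y) ≫ eqToHom (hy Y).symm
    obtain ⟨c', hc'⟩ := exists_edge hV (m.left ≫ eqToHom (hy Y))
    have h1 : hm c' ≫ hm (μ Y) = hm u := by
      have h2 := Over.w m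
      rw [hμ Y] at h2
      rw [← hc', Category.assoc]
      exact h2
    obtain ⟨h3⟩ := comp_of_eq hp h1
    obtain ⟨h4⟩ := hc Y
    obtain ⟨h5⟩ := fill33 hp h4 h3 (SSet.Edge.CompStruct.idComp u)
    have h6 := hm_comp h5
    have h7 : hm (SSet.Edge.id x) = 𝟙 (mk x) := HomotopyCategory.homMk_id _
    rw [h7, Category.id_comp] at h6
    rw [h6, ← hc']
    simp

end base

end Pool.Agent.R794.Gerbe
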