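import Pool.Agent.R794.Ho

set_option autoImplicit false

namespace Pool.Agent.R794.Gerbe

open CategoryTheory Simplicial Opposite Limits
open Pool.Agent.R794.HoTT
open SSet.Truncated (HomotopyCategory)

/-- the underlying 2-truncated simplicial set of `E` -/
abbrev E2 : SSet.Truncated.{0} 2 := (SSet.truncation 2).obj E

/-- `ℤ²` over `d`, `0` over `c` -/
def subB (b : Bool) : Submodule ℤ (ℤ × ℤ) where
  carrier := {z | b = true → z = 0}
  zero_mem' := fun _ => rfl
  add_mem' := fun {x y} hx hy h => by rw [hx h, hy h, add_zero]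
  smul_mem' := fun c x hx h => by rw [hx h, smul_zero]

/-- `ℤ` over `d`, `0` over `c` -/
def subA (b : Bool) : Submodule ℤ ℤ where
  carrier := {z | b = true → z = 0}
  zero_mem' := fun _ => rfl
  add_mem' := fun {x y} hx hy h => by rw [hx h, hy h, add_zero]
  smul_mem' := fun c x hx h => by rw [hx h, smul_zero]

/-- the unipotent automorphism with parameter `k` -/
def uni (k : ℤ) : ℤ × ℤ →ₗ[ℤ] ℤ × ℤ where
  toFun z := (z.1 + k * z.2, z.2)
  map_add' x y := by
    ext
    · simp; ring
    · simp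
  map_smul' c x := by
    ext
    · simp; ring
    · simp

theorem uni_add (k l : ℤ) (z : ℤ × ℤ) : uni k (uni l z) = uni (k + l) z := by
  ext
  · simp [uni]; ring
  · simp [uni]

theorem uni_zero (z : ℤ × ℤ) : uni 0 z = z := by
  ext <;> simp [uni]

/-- the value of an edge -/
def ek {x y : E _⦋0⦌} (e : SSet.Edge x y) : ℤ := EE.k e.edge 0 1

theorem E_src {x y : E _⦋0⦌} (e : SSet.Edge x y) : EE.v x 0 = EE.v e.edge 0 :=
  (congrArg (fun z : EE 0 => z.v 0) e.src_eq).symm

theorem E_tgt {x y : E _⦋0⦌} (e : SSet.Edge x y) : EE.v y 0 = EE.v e.edge 1 :=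
  (congrArg (fun z : EE 0 => z.v 0) e.tgt_eq).symm

theorem E_le {x y : E _⦋0⦌} (e : SSet.Edge x y) (h : EE.v x 0 = true) : EE.v y 0 = true := by
  rw [E_src] at h
  rw [E_tgt e]
  have := EE.mono e.edge (show (0 : Fin 2) ≤ 1 by decide)
  rw [h] at this
  exact top_le_iff.1 this

theorem ek_id (x : E _⦋0⦌) : ek (SSet.Edge.id x) = 0 :=
  EE.nz x 0 0 (by decide)

theorem ek_comp {x y z : E _⦋0⦌} {e : SSet.Edge x y} {e' : SSet.Edge y z} {e'' : SSet.Edge x z}
    (h : SSet.Edge.CompStruct e e' e'') (hz : EE.v z 0 = false) :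
    ek e + ek e' = ek e'' := by
  have h2 : ek e = EE.k h.simplex 0 1 := (congrArg (fun z : EE 1 => z.k 0 1) h.d₂).symm
  have h0 : ek e' = EE.k h.simplex 1 2 := (congrArg (fun z : EE 1 => z.k 0 1) h.d₀).symm
  have h1 : ek e'' = EE.k h.simplex 0 2 := (congrArg (fun z : EE 1 => z.k 0 1) h.d₁).symm
  rw [h0, h1, h2]
  apply EE.coc h.simplex 0 1 2 (by decide) (by decide)
  have h3 : EE.v e'.edge 1 = EE.v h.simplex 2 :=
    (congrArg (fun z : EE 1 => z.v 1) h.d₀).symm
  rw [← h3, ← E_tgt e']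
  exact hz

/-- the action of an edge -/
def actB {x y : E _⦋0⦌} (e : SSet.Edge x y) :
    ModuleCat.of ℤ (subB (EE.v y 0)) ⟶ ModuleCat.of ℤ (subB (EE.v x 0)) :=
  ModuleCat.ofHom (((uni (ek e)).comp (subB (EE.v y 0)).subtype).codRestrict _ (by
    rintro ⟨z, hz⟩ hx
    have : z = 0 := hz (E_le e hx)
    subst this
    exact map_zero _))

theorem actB_apply {x y : E _⦋0⦌} (e : SSet.Edge x y) (z : subB (EE.v y 0)) :
    ((actB e).hom z : ℤ × ℤ) = uni (ek e) z.1 := rfl

/-- the action of an edge -/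
def actA {x y : E _⦋0⦌} (e : SSet.Edge x y) :
    ModuleCat.of ℤ (subA (EE.v y 0)) ⟶ ModuleCat.of ℤ (subA (EE.v x 0)) :=
  ModuleCat.ofHom ((subA (EE.v y 0)).subtype.codRestrict _ (by
    rintro ⟨z, hz⟩ hx
    exact hz (E_le e hx)))

theorem actA_apply {x y : E _⦋0⦌} (e : SSet.Edge x y) (z : subA (EE.v y 0)) :
    ((actA e).hom z : ℤ) = z.1 := rfl

theorem B_id (x : E _⦋0⦌) : (actB (SSet.Edge.id x)).op
    = 𝟙 (op (ModuleCat.of ℤ (subB (EE.v x 0)))) := by
  apply Quiver.Hom.unop_inj
  refine ModuleCat.hom_ext (LinearMap.ext fun z => Subtype.ext ?_)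
  exact (congrArg (fun k => uni k z.1) (ek_id x)).trans (uni_zero z.1)

theorem B_comp {x y z : E _⦋0⦌} {e : SSet.Edge x y} {e' : SSet.Edge y z} {e'' : SSet.Edge x z}
    (h : SSet.Edge.CompStruct e e' e'') : (actB e).op ≫ (actB e').op = (actB e'').op := by
  apply Quiver.Hom.unop_inj
  refine ModuleCat.hom_ext (LinearMap.ext fun w => Subtype.ext ?_)
  change uni (ek e) (uni (ek e') w.1) = uni (ek e'') w.1
  rw [uni_add]
  by_cases hz : EE.v z 0 = true
  · have : w.1 = 0 := w.2 hz
    rw [this, map_zero, map_zero]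
  · rw [ek_comp h (Bool.eq_false_iff.2 hz)]

/-- the presheaf `B` with values in the opposite category -/
noncomputable def Bop : HoC E ⥤ (ModuleCat.{0} ℤ)ᵒᵖ :=
  HomotopyCategory.lift (V := E2) (fun x : E _⦋0⦌ => op (ModuleCat.of ℤ (subB (EE.v x 0))))
    (fun {_ _} e => (actB (SSet.Edge.ofTruncated e)).op)
    B_id (fun {_ _ _} {_ _ _} h => B_comp (SSet.Edge.CompStruct.ofTruncated h))

/-- the presheaf `A` with values in the opposite category -/
noncomputable def Aop : HoC E ⥤ (ModuleCat.{0} ℤ)ᵒᵖ :=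
  HomotopyCategory.lift (V := E2) (fun x : E _⦋0⦌ => op (ModuleCat.of ℤ (subA (EE.v x 0))))
    (fun {_ _} e => (actA (SSet.Edge.ofTruncated e)).op)
    (fun _ => rfl)
    (fun {_ _ _} {_ _ _} _ => rfl)

theorem Aop_map {x y : E _⦋0⦌} (e : SSet.Edge x y) : Aop.map (hm e) = (actA e).op :=
  HomotopyCategory.lift_map_homMk (V := E2) _ _ (fun _ => rfl) (fun {_ _ _} {_ _ _} _ => rfl)
    e.toTruncated

theorem Bop_map {x y : E _⦋0⦌} (e : SSet.Edge x y) : Bop.map (hm e) = (actB e).op :=
  HomotopyCategory.lift_map_homMk (V := E2)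
    (fun x : E _⦋0⦌ => op (ModuleCat.of ℤ (subB (EE.v x 0))))
    (fun {_ _} e => (actB (SSet.Edge.ofTruncated e)).op) B_id
    (fun {_ _ _} {_ _ _} h => B_comp (SSet.Edge.CompStruct.ofTruncated h)) e.toTruncated

/-- the inclusion `A → B` over a vertex -/
def incl (b : Bool) : ModuleCat.of ℤ (subA b) ⟶ ModuleCat.of ℤ (subB b) :=
  ModuleCat.ofHom (((LinearMap.inl ℤ ℤ ℤ).comp (subA b).subtype).codRestrict _ (by
    rintro ⟨z, hz⟩ hx
    have : z = 0 := hz hx
    subst this
    exact map_zero _))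

/-- the inclusion `A → B` -/
noncomputable def iop : Bop ⟶ Aop :=
  HomotopyCategory.mkNatTrans (V := E2) (F := Bop) (G := Aop)
    (fun x : E _⦋0⦌ => (incl (EE.v x 0)).op)
    (by
      intro x y e
      have h1 : Bop.map (HomotopyCategory.homMk e) = (actB (SSet.Edge.ofTruncated e)).op :=
        Bop_map (SSet.Edge.ofTruncated e)
      have h2 : Aop.map (HomotopyCategory.homMk e) = (actA (SSet.Edge.ofTruncated e)).op :=
        Aop_map (SSet.Edge.ofTruncated e)
      rw [h1, h2]
      apply Quiver.Hom.unop_inj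
      refine ModuleCat.hom_ext (LinearMap.ext fun w => Subtype.ext ?_)
      change uni _ ((w.1 : ℤ), (0 : ℤ)) = ((w.1 : ℤ), (0 : ℤ))
      simp [uni])

/-- the rational numbers -/
abbrev QQ : ModuleCat.{0} ℤ := ModuleCat.of ℤ ℚ

/-- the map `A → ℚ` over a vertex -/
def toQ (b : Bool) : ModuleCat.of ℤ (subA b) ⟶ QQ :=
  ModuleCat.ofHom ((Int.castAddHom ℚ).toIntLinearMap.comp (subA b).subtype)

/-- the map `A → ℚ` -/
noncomputable def fop : (Functor.const (HoC E)).obj (op QQ) ⟶ Aop :=
  HomotopyCategory.mkNatTrans (V := E2) (F := (Functor.const (HoC E)).obj (op QQ)) (G := Aop)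
    (fun x : E _⦋0⦌ => (toQ (EE.v x 0)).op)
    (by
      intro x y e
      have h2 : Aop.map (HomotopyCategory.homMk e) = (actA (SSet.Edge.ofTruncated e)).op :=
        Aop_map (SSet.Edge.ofTruncated e)
      rw [h2]
      rfl)

/-- the vertex `d` -/
def Ed : E _⦋0⦌ where
  v _ := false
  k _ _ := 0
  mono := monotone_const
  nz _ _ _ := rfl
  vc _ _ _ := rfl
  coc _ _ _ _ _ _ := rfl

/-- the vertex `c` -/
def Ec : E _⦋0⦌ where
  v _ := true
  k _ _ := 0
  mono := monotone_const
  nz _ _ _ := rfl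
  vc _ _ _ := rfl
  coc _ _ _ _ _ _ := rfl

theorem EE.ext0 {x y : EE 0} (h : x.v 0 = y.v 0) : x = y := by
  apply EE.ext
  · funext a
    fin_cases a
    exact h
  · funext a b
    rw [x.nz, y.nz] <;> omega

/-- the loop -/
def w : SSet.Edge Ed Ed :=
  SSet.Edge.mk (X := E) (show EE 1 from
    { v := fun _ => false
      k := fun a b => if a = 0 ∧ b = 1 then 1 else 0
      mono := monotone_const
      nz := by decide
      vc := by decide
      coc := by decide }) (EE.ext0 rfl) (EE.ext0 rfl)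

/-- the edge from `d` to `c` -/
def u : SSet.Edge Ed Ec :=
  SSet.Edge.mk (X := E) (show EE 1 from
    { v := ![false, true]
      k := fun _ _ => 0
      mono := by decide
      nz := by decide
      vc := by decide
      coc := by decide }) (EE.ext0 rfl) (EE.ext0 rfl)

/-- the relation -/
def wu : SSet.Edge.CompStruct w u u :=
  SSet.Edge.CompStruct.mk (X := E) (show EE 2 from
    { v := ![false, false, true]
      k := fun a b => if a = 0 ∧ b = 1 then 1 else 0
      mono := by decide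
      nz := by decide
      vc := by decide
      coc := by decide })
    (by
      apply EE.ext
      · decide
      · decide)
    (by
      apply EE.ext
      · decide
      · decide)
    (by
      apply EE.ext
      · decide
      · decide)

theorem E_not_injective (I : (HoC E)ᵒᵖ ⥤ ModuleCat.{0} ℤ)
    (hI : I = (Functor.const (HoC E)ᵒᵖ).obj QQ) : ¬ InternallyInjective I := by
  subst hI
  intro h
  let A : (HoC E)ᵒᵖ ⥤ ModuleCat.{0} ℤ := Aop.leftOp
  let B : (HoC E)ᵒᵖ ⥤ ModuleCat.{0} ℤ := Bop.leftOp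
  let i : A ⟶ B := NatTrans.leftOp iop
  let f : A ⟶ (Functor.const (HoC E)ᵒᵖ).obj QQ := NatTrans.leftOp fop
  have hi : Mono i := by
    rw [NatTrans.mono_iff_mono_app]
    intro X
    rw [ModuleCat.mono_iff_injective]
    intro a b hab
    apply Subtype.ext
    exact congrArg (fun z => z.1.1) hab
  obtain ⟨g, hg⟩ := h A B i hi (mk Ec) (Functor.whiskerLeft (Over.forget (mk Ec)).op f)
  let X : Over (mk Ec) := Over.mk (hm u)
  let φ : X ⟶ X := Over.homMk (hm w) (hm_comp wu)
  let g0 : ModuleCat.of ℤ (subB false) ⟶ QQ := g.app (op X)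
  have h1 : incl false ≫ g0 = toQ false := congrArg (fun α => α.app (op X)) hg
  have h2 : actB w ≫ g0 = g0 := by
    have h3 := g.naturality φ.op
    have h4 : B.map (hm w).op = actB w := congrArg (fun α => α.unop) (Bop_map w)
    have h5 : B.map (hm w).op ≫ g0 = g0 ≫ 𝟙 QQ := h3
    rw [Category.comp_id] at h5
    rw [← h4]
    exact h5
  have e1 : g0.hom (⟨(1, 0), fun h => absurd h (by decide)⟩ : subB false) = 1 := by
    have := congrArg (fun α => α.hom (⟨1, fun h => absurd h (by decide)⟩ : subA false)) h1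
    exact this.trans (by exact Int.cast_one)
  have e2 : g0.hom (⟨(1, 1), fun h => absurd h (by decide)⟩ : subB false)
      = g0.hom (⟨(0, 1), fun h => absurd h (by decide)⟩ : subB false) := by
    have := congrArg (fun α => α.hom (⟨(0, 1), fun h => absurd h (by decide)⟩ : subB false)) h2
    exact this
  have e3 : g0.hom (⟨(1, 1), fun h => absurd h (by decide)⟩ : subB false)
      = g0.hom (⟨(1, 0), fun h => absurd h (by decide)⟩ : subB false)
        + g0.hom (⟨(0, 1), fun h => absurd h (by decide)⟩ : subB false) := by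
    rw [← map_add]
    rfl
  rw [e2, e1] at e3
  have e4 : (1 : ℚ) = 0 := by
    have := e3
    linarith
  exact one_ne_zero e4

end Pool.Agent.R794.Gerbe
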