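import Pool.Agent.R794.Delta
import Pool.Agent.R794.NotInj

set_option autoImplicit false

namespace Pool.Agent.R794.Gerbe

open CategoryTheory Simplicial Opposite Limits
open Pool.Agent.R794.HoTT
open SSet.Truncated (HomotopyCategory)

/-- `false ↦ 0`, `true ↦ 1` -/
def b2 : Bool →o Fin 2 where
  toFun b := if b then 1 else 0
  monotone' := by decide

/-- the map `S → Δ¹` -/
def piS : S ⟶ Δ[1] where
  app n := ↾ fun (x : SS n.unop.len) => SSet.stdSimplex.objMk (b2.comp ⟨x.v, x.mono⟩)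
  naturality {m n} f := by
    ext x
    rfl

theorem id_rf : IsRightFibration (𝟙 (Δ[1] : SSet.{0})) := by
  intro n i hi
  infer_instance

theorem D_comp {x y z : (Δ[1] : SSet.{0}) _⦋0⦌} (e : SSet.Edge x y) (e' : SSet.Edge y z) :
    ∃ e'' : SSet.Edge x z, Nonempty (SSet.Edge.CompStruct e e' e'') := fillI id_rf e e'

instance D_edge (x y : (Δ[1] : SSet.{0}) _⦋0⦌) : Subsingleton (SSet.Edge x y) := ⟨fun e e' => by
  apply SSet.Edge.ext
  apply SSet.stdSimplex.ext
  intro a
  fin_cases a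
  · exact (ht_src (𝟙 _) e).trans (ht_src (𝟙 _) e').symm
  · exact (ht_tgt (𝟙 _) e).trans (ht_tgt (𝟙 _) e').symm⟩

instance D_thin (A B : HoC (Δ[1] : SSet.{0})) : Subsingleton (A ⟶ B) := by
  obtain ⟨x, rfl⟩ := mk_rep A
  obtain ⟨y, rfl⟩ := mk_rep B
  constructor
  intro f g
  obtain ⟨e, rfl⟩ := exists_edge D_comp f
  obtain ⟨e', rfl⟩ := exists_edge D_comp g
  rw [Subsingleton.elim e e']

/-- the functor `ho S ⥤ ho Δ¹` -/
abbrev FF : SSet.hoFunctor.obj S ⥤ SSet.hoFunctor.obj (Δ[1] : SSet.{0}) :=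
  (SSet.hoFunctor.map piS).toFunctor

instance : FF.Faithful where
  map_injective {X Y} f g _ := (S_thin X Y).elim f g

instance : FF.Full where
  map_surjective {X Y} g := by
    obtain ⟨x, rfl⟩ := mk_rep X
    obtain ⟨y, rfl⟩ := mk_rep Y
    obtain ⟨e, he⟩ := exists_edge (X := Δ[1]) (x := piS.app _ x) (y := piS.app _ y) D_comp g
    have h1 := ht_le (𝟙 _) e
    have h2 : SS.v x 0 ≤ SS.v y 0 := by
      have h3 : b2 (SS.v x 0) ≤ b2 (SS.v y 0) := h1
      revert h3
      generalize SS.v x 0 = a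
      generalize SS.v y 0 = b
      revert a b
      decide
    exact ⟨hm (S_edge x y h2), (D_thin _ _).elim _ _⟩

instance : FF.EssSurj where
  mem_essImage Y := by
    obtain ⟨y, rfl⟩ := mk_rep Y
    have h : ∃ x : S _⦋0⦌, piS.app _ x = y := by
      obtain h | h : (y : Fin 1 → Fin 2) 0 = 0 ∨ (y : Fin 1 → Fin 2) 0 = 1 := by
        generalize (y : Fin 1 → Fin 2) 0 = a
        revert a
        decide
      · refine ⟨Sd, ?_⟩
        apply SSet.stdSimplex.ext
        intro a
        fin_cases a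
        exact h.symm
      · refine ⟨Sc, ?_⟩
        apply SSet.stdSimplex.ext
        intro a
        fin_cases a
        exact h.symm
    obtain ⟨x, rfl⟩ := h
    exact ⟨mk x, ⟨Iso.refl _⟩⟩

instance : FF.IsEquivalence where

end Pool.Agent.R794.Gerbe
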