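import Pool.Agent.R684.GP.Stm

set_option autoImplicit false

/-! GP-ZF: derivations of free groups into permutation modules -/

namespace Pool.Agent.R794.GPZF

open Pool.Agent.W649.ZL Pool.Agent.R684.PN Pool.Agent.R684.VG Pool.Agent.R684.GP

section
variable {X : Type} (H : Subgroup (FreeGroup X))

/-- the affine permutation of the module attached to a generator -/
def aff (f : X → (FreeGroup X ⧸ H) → ℂ) (x : X) : Equiv.Perm ((FreeGroup X ⧸ H) → ℂ) where
  toFun u := fun y => f x y + u ((FreeGroup.of x)⁻¹ • y)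
  invFun v := fun y => v (FreeGroup.of x • y) - f x (FreeGroup.of x • y)
  left_inv u := by funext y; simp
  right_inv v := by funext y; simp

/-- the affine action -/
def rho (f : X → (FreeGroup X ⧸ H) → ℂ) : FreeGroup X →* Equiv.Perm ((FreeGroup X ⧸ H) → ℂ) :=
  FreeGroup.lift (aff H f)

theorem rho_of (f : X → (FreeGroup X ⧸ H) → ℂ) (x : X) (u : (FreeGroup X ⧸ H) → ℂ)
    (y : FreeGroup X ⧸ H) :
    rho H f (FreeGroup.of x) u y = f x y + u ((FreeGroup.of x)⁻¹ • y) := by
  unfold rho
  rw [FreeGroup.lift_apply_of]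
  rfl

theorem rho_aff (f : X → (FreeGroup X ⧸ H) → ℂ) (g : FreeGroup X) :
    ∀ (u : (FreeGroup X ⧸ H) → ℂ) (y : FreeGroup X ⧸ H),
      rho H f g u y = rho H f g 0 y + u (g⁻¹ • y) := by
  induction g using FreeGroup.induction_on with
  | C1 => intro u y; simp
  | of x => intro u y; rw [rho_of, rho_of]; simp
  | inv_of x ih =>
    intro u y
    have hinv : ∀ (σ : Equiv.Perm ((FreeGroup X ⧸ H) → ℂ)) (v : (FreeGroup X ⧸ H) → ℂ),
      σ (σ⁻¹ v) = v := fun σ v => Equiv.apply_symm_apply σ v
    have h1 := ih (rho H f (FreeGroup.of x)⁻¹ u) (FreeGroup.of x • y)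
    have h2 := ih (rho H f (FreeGroup.of x)⁻¹ 0) (FreeGroup.of x • y)
    rw [map_inv, hinv, inv_smul_smul] at h1 h2
    rw [map_inv, inv_inv]
    simp only [Pi.zero_apply] at h2
    linear_combination h2 - h1
  | mul g h ihg ihh =>
    intro u y
    have e : ∀ v, rho H f (g * h) v = rho H f g (rho H f h v) := fun v => by
      rw [map_mul]; rfl
    rw [e, e, ihg, ihh, ihg (rho H f h 0)]
    rw [mul_inv_rev, mul_smul]
    ring

theorem mem_Zp (f : X → (FreeGroup X ⧸ H) → ℂ) :
    (fun g => rho H f g 0) ∈ Zp (FreeGroup X) H := by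
  intro g h y
  have e : rho H f (g * h) 0 = rho H f g (rho H f h 0) := by rw [map_mul]; rfl
  change rho H f (g * h) 0 y = _
  rw [e, rho_aff]

/-- restriction to the generators -/
def res : Zp (FreeGroup X) H →ₗ[ℂ] (X → (FreeGroup X ⧸ H) → ℂ) where
  toFun c := fun x => c.1 (FreeGroup.of x)
  map_add' _ _ := rfl
  map_smul' _ _ := rfl

theorem res_inj : Function.Injective (res H) := by
  rw [← LinearMap.ker_eq_bot, LinearMap.ker_eq_bot']
  rintro ⟨c, hc⟩ h0
  have hx : ∀ x y, c (FreeGroup.of x) y = 0 := fun x y => congrFun (congrFun h0 x) y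
  have hc' : ∀ (g h : FreeGroup X) (y : FreeGroup X ⧸ H), c (g * h) y = c g y + c h (g⁻¹ • y) := hc
  have h1 : ∀ y, c 1 y = 0 := by
    intro y
    have := hc' 1 1 y
    simp only [mul_one, inv_one, one_smul] at this
    linear_combination -this
  apply Subtype.ext
  change c = 0
  funext g
  induction g using FreeGroup.induction_on with
  | C1 => funext y; exact h1 y
  | of x => funext y; exact hx x y
  | inv_of x _ =>
    funext y
    have := hc' (FreeGroup.of x) (FreeGroup.of x)⁻¹ (FreeGroup.of x • y)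
    rw [mul_inv_cancel, h1, hx, inv_smul_smul] at this
    simp only [Pi.zero_apply]
    linear_combination -this
  | mul g h ihg ihh =>
    funext y
    rw [hc', ihg, ihh]
    simp

theorem res_surj : Function.Surjective (res H) := by
  intro f
  refine ⟨⟨_, mem_Zp H f⟩, ?_⟩
  funext x y
  change rho H f (FreeGroup.of x) 0 y = f x y
  rw [rho_of]
  simp

end

theorem t_ZF : S_ZF := by
  intro X _ H _
  have e := LinearEquiv.ofBijective (res H) ⟨res_inj H, res_surj H⟩
  have : Fintype (FreeGroup X ⧸ H) := Subgroup.fintypeQuotientOfFiniteIndex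
  rw [e.finrank_eq, Module.finrank_pi_fintype]
  simp only [Module.finrank_fintype_fun_eq_card, Finset.sum_const, Finset.card_univ, smul_eq_mul]
  rw [Subgroup.index, Nat.card_eq_fintype_card]

end Pool.Agent.R794.GPZF
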