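import Pool.Agent.R794.HoTTDefs

set_option autoImplicit false

namespace Pool.Agent.R794.Gerbe

open CategoryTheory Simplicial Opposite
open Pool.Agent.R794.HoTT

/-- An `n`-simplex of `S`: a monotone map `v : [n] → {d < c}` together with a normalised
`2`-cocycle `s` of `Δⁿ` with values in `ℤ`, which vanishes on the `d`-face and on the `c`-face. -/
@[ext]
structure SS (n : ℕ) : Type where
  v : Fin (n + 1) → Bool
  s : Fin (n + 1) → Fin (n + 1) → Fin (n + 1) → ℤ
  mono : Monotone v
  nz : ∀ i j l, ¬ (i < j ∧ j < l) → s i j l = 0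
  vd : ∀ i j l, v l = false → s i j l = 0
  vc : ∀ i j l, v i = true → s i j l = 0
  coc : ∀ i j l m, i ≤ j → j ≤ l → l ≤ m → s j l m - s i l m + s i j m - s i j l = 0

/-- An `n`-simplex of `E`. -/
@[ext]
structure EE (n : ℕ) : Type where
  v : Fin (n + 1) → Bool
  k : Fin (n + 1) → Fin (n + 1) → ℤ
  mono : Monotone v
  nz : ∀ i j, ¬ (i < j) → k i j = 0
  vc : ∀ i j, v i = true → k i j = 0
  coc : ∀ i j l, i ≤ j → j ≤ l → v l = false → k i j + k j l = k i l

def SS.pull {m n : ℕ} (x : SS n) (f : Fin (m + 1) →o Fin (n + 1)) : SS m where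
  v i := x.v (f i)
  s i j l := x.s (f i) (f j) (f l)
  mono := x.mono.comp f.monotone
  nz i j l h := by
    apply x.nz
    rintro ⟨h1, h2⟩
    apply h
    constructor
    · by_contra h3
      exact absurd (f.monotone (not_lt.1 h3)) (not_le.2 h1)
    · by_contra h3
      exact absurd (f.monotone (not_lt.1 h3)) (not_le.2 h2)
  vd i j l h := x.vd _ _ _ h
  vc i j l h := x.vc _ _ _ h
  coc i j l m h1 h2 h3 := x.coc _ _ _ _ (f.monotone h1) (f.monotone h2) (f.monotone h3)

def EE.pull {m n : ℕ} (x : EE n) (f : Fin (m + 1) →o Fin (n + 1)) : EE m where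
  v i := x.v (f i)
  k i j := x.k (f i) (f j)
  mono := x.mono.comp f.monotone
  nz i j h := by
    apply x.nz
    intro h1
    apply h
    by_contra h3
    exact absurd (f.monotone (not_lt.1 h3)) (not_le.2 h1)
  vc i j h := x.vc _ _ h
  coc i j l h1 h2 h3 := x.coc _ _ _ (f.monotone h1) (f.monotone h2) h3

/-- The base. -/
def S : SSet.{0} where
  obj n := SS n.unop.len
  map f := ↾ fun x => x.pull f.unop.toOrderHom
  map_id _ := rfl
  map_comp _ _ := rfl

/-- The total space. -/
def E : SSet.{0} where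
  obj n := EE n.unop.len
  map f := ↾ fun x => x.pull f.unop.toOrderHom
  map_id _ := rfl
  map_comp _ _ := rfl

def EE.proj {n : ℕ} (x : EE n) : SS n where
  v := x.v
  s i j l := if i < j ∧ j < l then x.k i j + x.k j l - x.k i l else 0
  mono := x.mono
  nz i j l h := if_neg h
  vd i j l h := by
    split_ifs with h1
    · rw [x.coc i j l h1.1.le h1.2.le h, sub_self]
    · rfl
  vc i j l h := by
    split_ifs with h1
    · have h2 : x.v j = true := by
        have := x.mono h1.1.le
        rw [h] at this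
        exact top_le_iff.1 this
      rw [x.vc i j h, x.vc j l h2, x.vc i l h]; rfl
    · rfl
  coc i j l m h1 h2 h3 := by
    have key : ∀ i j l : Fin (n + 1), i ≤ j → j ≤ l →
        (if i < j ∧ j < l then x.k i j + x.k j l - x.k i l else 0)
          = x.k i j + x.k j l - x.k i l := by
      intro i j l h1 h2
      split_ifs with h
      · rfl
      · rw [not_and_or, not_lt, not_lt] at h
        rcases h with h | h
        · have : i = j := le_antisymm h1 h
          subst this
          rw [x.nz i i (lt_irrefl _)]; ring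
        · have : j = l := le_antisymm h2 h
          subst this
          rw [x.nz j j (lt_irrefl _)]; ring
    rw [key _ _ _ h2 h3, key _ _ _ (h1.trans h2) h3, key _ _ _ h1 (h2.trans h3), key _ _ _ h1 h2]
    ring

theorem EE.proj_s {n : ℕ} (x : EE n) (i j l : Fin (n + 1)) (h1 : i ≤ j) (h2 : j ≤ l) :
    x.proj.s i j l = x.k i j + x.k j l - x.k i l := by
  change (if i < j ∧ j < l then x.k i j + x.k j l - x.k i l else 0) = _
  split_ifs with h
  · rfl
  · rw [not_and_or, not_lt, not_lt] at h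
    rcases h with h | h
    · have : i = j := le_antisymm h1 h
      subst this
      rw [x.nz i i (lt_irrefl _)]; ring
    · have : j = l := le_antisymm h2 h
      subst this
      rw [x.nz j j (lt_irrefl _)]; ring

theorem EE.proj_pull {m n : ℕ} (x : EE n) (f : Fin (m + 1) →o Fin (n + 1)) :
    (x.pull f).proj = x.proj.pull f := by
  apply SS.ext
  · rfl
  · funext i j l
    by_cases h : i < j ∧ j < l
    · rw [EE.proj_s _ _ _ _ h.1.le h.2.le]
      change _ = x.proj.s _ _ _
      rw [EE.proj_s _ _ _ _ (f.monotone h.1.le) (f.monotone h.2.le)]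
      rfl
    · rw [SS.nz _ _ _ _ h, SS.nz _ _ _ _ h]

/-- The projection `E → S`. -/
def p : E ⟶ S where
  app n := ↾ fun (x : EE n.unop.len) => x.proj
  naturality {m n} f := by
    ext x
    exact EE.proj_pull x f.unop.toOrderHom

theorem hasLift {n : ℕ} {i : Fin (n + 2)} {E S : SSet.{0}} (p : E ⟶ S)
    (H : ∀ (f : (SSet.horn.{0} (n + 1) i : SSet.{0}) ⟶ E) (s : S _⦋n + 1⦌),
      (∀ (m : ℕ) (x : (SSet.horn.{0} (n + 1) i : SSet.{0}) _⦋m⦌),
        p.app _ (f.app _ x) = S.map (SSet.stdSimplex.objEquiv x.1).op s) →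
      ∃ e : E _⦋n + 1⦌, p.app _ e = s ∧
        ∀ (j : Fin (n + 2)) (hj : j ≠ i), E.δ j e = f.app _ (SSet.horn.face i j hj)) :
    HasLiftingProperty (SSet.horn.{0} (n + 1) i).ι p where
  sq_hasLift {f g} sq := by
    have hface : ∀ (j : Fin (n + 2)) (hj : j ≠ i),
        SSet.yonedaEquiv (SSet.horn.ι i j hj ≫ f) = f.app _ (SSet.horn.face i j hj) := by
      intro j hj
      rw [SSet.yonedaEquiv_comp, SSet.horn.yonedaEquiv_ι]
    obtain ⟨e, he, hf⟩ := H f (SSet.yonedaEquiv g) (by
      intro m x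
      have h1 := congrArg (fun φ => φ.app (op ⦋m⦌) x) sq.w
      have h2 : p.app _ (f.app _ x) = g.app _ x.1 := h1
      rw [h2]
      obtain ⟨g, rfl⟩ := SSet.yonedaEquiv.symm.surjective g
      rw [Equiv.apply_symm_apply]
      rfl)
    refine ⟨⟨⟨SSet.yonedaEquiv.symm e, ?_, ?_⟩⟩⟩
    · apply SSet.horn.hom_ext'
      intro j hj
      apply SSet.yonedaEquiv.injective
      rw [hface, ← hf j hj, SSet.horn.ι_ι_assoc, SSet.stdSimplex.yonedaEquiv_δ_comp,
        Equiv.apply_symm_apply]
    · apply SSet.yonedaEquiv.injective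
      rw [← he, SSet.yonedaEquiv_comp, Equiv.apply_symm_apply]

section fill

variable {n : ℕ} {i : Fin (n + 2)} (f : (SSet.horn.{0} (n + 1) i : SSet.{0}) ⟶ E)
  (s : S _⦋n + 1⦌)

/-- the value of `f` on a simplex of the horn -/
def fv {m : ℕ} (x : (SSet.horn.{0} (n + 1) i : SSet.{0}) _⦋m⦌) : EE m := f.app (op ⦋m⦌) x

/-- the vertices of a simplex of the horn -/
def vt {m : ℕ} (x : (SSet.horn.{0} (n + 1) i : SSet.{0}) _⦋m⦌) : Fin (m + 1) →o Fin (n + 2) :=
  SSet.stdSimplex.asOrderHom x.1

/-- compatibility of `f` and `s` -/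
def Compat : Prop := ∀ (m : ℕ) (x : (SSet.horn.{0} (n + 1) i : SSet.{0}) _⦋m⦌),
  (fv f x).proj = SS.pull s (vt x)

theorem fv_map {m l : ℕ} (x : (SSet.horn.{0} (n + 1) i : SSet.{0}) _⦋m⦌)
    (y : (SSet.horn.{0} (n + 1) i : SSet.{0}) _⦋l⦌) (φ : Fin (l + 1) →o Fin (m + 1))
    (h : ∀ a, vt y a = vt x (φ a)) : fv f y = (fv f x).pull φ := by
  let ψ : (⦋l⦌ : SimplexCategory) ⟶ ⦋m⦌ := SimplexCategory.Hom.mk φ
  have h1 : y = (SSet.horn.{0} (n + 1) i : SSet.{0}).map ψ.op x := by
    apply Subtype.ext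
    apply SSet.stdSimplex.ext
    exact h
  have h2 := NatTrans.naturality_apply f ψ.op x
  rw [h1]
  exact h2

theorem fill_of (hc : Compat f s) (K : Fin (n + 2) → Fin (n + 2) → ℤ)
    (hnz : ∀ a b, ¬ (a < b) → K a b = 0) (hvc : ∀ a b, a < b → SS.v s a = true → K a b = 0)
    (h3 : ∀ a b c, a < b → b < c → K a b + K b c - K a c = SS.s s a b c)
    (hK : ∀ (j : Fin (n + 2)) (hj : j ≠ i) (a b : Fin (n + 1)), a < b →
      (fv f (SSet.horn.face i j hj)).k a b = K (j.succAbove a) (j.succAbove b)) :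
    ∃ e : E _⦋n + 1⦌, p.app _ e = s ∧
        ∀ (j : Fin (n + 2)) (hj : j ≠ i), E.δ j e = f.app _ (SSet.horn.face i j hj) := by
  have h3' : ∀ a b c, a ≤ b → b ≤ c → K a b + K b c - K a c = SS.s s a b c := by
    intro a b c hab hbc
    rcases hab.lt_or_eq with hab | rfl
    · rcases hbc.lt_or_eq with hbc | rfl
      · exact h3 a b c hab hbc
      · rw [hnz b b (lt_irrefl _), SS.nz s _ _ _ (fun h => lt_irrefl _ h.2)]; ring
    · rw [hnz a a (lt_irrefl _), SS.nz s _ _ _ (fun h => lt_irrefl _ h.1)]; ring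
  let e : EE (n + 1) :=
    { v := SS.v s
      k := K
      mono := SS.mono s
      nz := hnz
      vc := fun a b h => by
        by_cases hab : a < b
        · exact hvc a b hab h
        · exact hnz a b hab
      coc := fun a b c hab hbc h => by
        have h1 := h3' a b c hab hbc
        rw [SS.vd s _ _ _ h] at h1
        linarith }
  refine ⟨e, ?_, ?_⟩
  · apply SS.ext
    · rfl
    · funext a b c
      by_cases h : a < b ∧ b < c
      · exact (EE.proj_s e a b c h.1.le h.2.le).trans (h3 a b c h.1 h.2)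
      · exact (SS.nz e.proj _ _ _ h).trans (SS.nz s _ _ _ h).symm
  · intro j hj
    have hc' := hc n (SSet.horn.face i j hj)
    apply EE.ext
    · exact (congrArg SS.v hc').symm
    · funext a b
      by_cases h : a < b
      · exact (hK j hj a b h).symm
      · exact (EE.nz (e.pull (SimplexCategory.δ j).toOrderHom) a b h).trans
          (EE.nz (fv f (SSet.horn.face i j hj)) a b h).symm

/-- a simplex of the horn with given vertices -/
def mkH {m : ℕ} (φ : Fin (m + 1) →o Fin (n + 2)) (j : Fin (n + 2)) (hj : j ≠ i)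
    (h : ∀ a, φ a ≠ j) : (SSet.horn.{0} (n + 1) i : SSet.{0}) _⦋m⦌ :=
  ⟨SSet.stdSimplex.objMk φ, by
    rw [SSet.mem_horn_iff_notMem_range]
    refine ⟨j, hj, ?_⟩
    rintro ⟨a, ha⟩
    exact h a ha⟩

theorem vt_mkH {m : ℕ} (φ : Fin (m + 1) →o Fin (n + 2)) (j : Fin (n + 2)) (hj : j ≠ i)
    (h : ∀ a, φ a ≠ j) (a : Fin (m + 1)) : vt (mkH φ j hj h) a = φ a := rfl

theorem vt_face (j : Fin (n + 2)) (hj : j ≠ i) (a : Fin (n + 1)) :
    vt (SSet.horn.face i j hj) a = j.succAbove a := rfl

/-- a pair as a monotone map -/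
def pr {N : ℕ} (a b : Fin N) (h : a ≤ b) : Fin 2 →o Fin N where
  toFun := ![a, b]
  monotone' := by
    intro x y hxy
    fin_cases x <;> fin_cases y <;> simp_all

/-- a triple as a monotone map -/
def tr {N : ℕ} (a b c : Fin N) (h : a ≤ b) (h' : b ≤ c) : Fin 3 →o Fin N where
  toFun := ![a, b, c]
  monotone' := by
    intro x y hxy
    fin_cases x <;> fin_cases y <;> simp_all
    exact h.trans h'

theorem exists_avoid (T : Finset (Fin (n + 2))) (h : T.card < n + 2) : ∃ j, j ∉ T := by
  by_contra h1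
  push Not at h1
  have : T = Finset.univ := Finset.eq_univ_iff_forall.2 h1
  rw [this, Finset.card_univ, Fintype.card_fin] at h
  exact lt_irrefl _ h

theorem fill_big (hn : 2 ≤ n) (hc : Compat f s) :
    ∃ e : E _⦋n + 1⦌, p.app _ e = s ∧
        ∀ (j : Fin (n + 2)) (hj : j ≠ i), E.δ j e = f.app _ (SSet.horn.face i j hj) := by
  classical
  -- the value on an edge
  have hedge : ∀ a b : Fin (n + 2), ∃ j, j ≠ i ∧ a ≠ j ∧ b ≠ j := by
    intro a b
    obtain ⟨j, hj⟩ := exists_avoid ({a, b, i} : Finset (Fin (n + 2)))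
      (lt_of_le_of_lt Finset.card_le_three (by omega))
    simp only [Finset.mem_insert, Finset.mem_singleton, not_or] at hj
    exact ⟨j, hj.2.2, fun h => hj.1 h.symm, fun h => hj.2.1 h.symm⟩
  have hE : ∀ a b : Fin (n + 2), a < b → ∃ x : (SSet.horn.{0} (n + 1) i : SSet.{0}) _⦋1⦌,
      vt x 0 = a ∧ vt x 1 = b := by
    intro a b hab
    obtain ⟨j, hj, h1, h2⟩ := hedge a b
    refine ⟨mkH (pr a b hab.le) j hj ?_, rfl, rfl⟩
    intro c
    fin_cases c
    · exact h1
    · exact h2
  choose ed hed0 hed1 using hE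
  let K : Fin (n + 2) → Fin (n + 2) → ℤ := fun a b =>
    if h : a < b then (fv f (ed a b h)).k 0 1 else 0
  have hKpos : ∀ a b (h : a < b), K a b = (fv f (ed a b h)).k 0 1 := fun a b h => dif_pos h
  have hKx : ∀ {m : ℕ} (x : (SSet.horn.{0} (n + 1) i : SSet.{0}) _⦋m⦌) (a b : Fin (m + 1)),
      a ≤ b → vt x a < vt x b → (fv f x).k a b = K (vt x a) (vt x b) := by
    intro m x a b hab hlt
    rw [hKpos _ _ hlt]
    have := fv_map f x (ed _ _ hlt) (pr a b hab) (by
      intro c
      fin_cases c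
      · exact hed0 _ _ hlt
      · exact hed1 _ _ hlt)
    rw [this]
    rfl
  have hnz : ∀ a b, ¬ (a < b) → K a b = 0 := fun a b h => dif_neg h
  -- triples of the horn
  have htri : ∀ a b c : Fin (n + 2), a < b → b < c → (i = a ∨ i = b ∨ i = c) →
      K a b + K b c - K a c = SS.s s a b c := by
    intro a b c hab hbc hi
    obtain ⟨j, hj⟩ := exists_avoid ({a, b, c} : Finset (Fin (n + 2)))
      (lt_of_le_of_lt Finset.card_le_three (by omega))
    simp only [Finset.mem_insert, Finset.mem_singleton, not_or] at hj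
    have hji : j ≠ i := by
      rintro rfl
      rcases hi with h | h | h
      · exact hj.1 h
      · exact hj.2.1 h
      · exact hj.2.2 h
    have hj' : ∀ d, tr a b c hab.le hbc.le d ≠ j := by
      intro d
      fin_cases d
      · exact fun h => hj.1 h.symm
      · exact fun h => hj.2.1 h.symm
      · exact fun h => hj.2.2 h.symm
    let x := mkH (i := i) (tr a b c hab.le hbc.le) j hji hj'
    have h1 := congrArg (fun y : SS 2 => y.s 0 1 2) (hc 2 x)
    have h2 : (fv f x).proj.s 0 1 2 = SS.s s a b c := h1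
    rw [EE.proj_s _ _ _ _ (by decide) (by decide)] at h2
    rw [hKx x 0 1 (by decide) hab, hKx x 1 2 (by decide) hbc,
      hKx x 0 2 (by decide) (hab.trans hbc)] at h2
    exact h2
  refine fill_of f s hc K hnz ?_ ?_ ?_
  · intro a b hab hv
    rw [hKpos a b hab]
    apply EE.vc
    have h1 := congrArg (fun y : SS 1 => y.v 0) (hc 1 (ed a b hab))
    have h2 : (fv f (ed a b hab)).v 0 = SS.v s (vt (ed a b hab) 0) := h1
    rw [h2, hed0]
    exact hv
  · intro a b c hab hbc
    by_cases hi : i = a ∨ i = b ∨ i = c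
    · exact htri a b c hab hbc hi
    · push Not at hi
      rcases lt_or_gt_of_ne hi.1 with h1 | h1
      · have e1 := htri i a b h1 hab (Or.inl rfl)
        have e2 := htri i a c h1 (hab.trans hbc) (Or.inl rfl)
        have e3 := htri i b c (h1.trans hab) hbc (Or.inl rfl)
        have e4 := SS.coc s i a b c h1.le hab.le hbc.le
        linarith
      · rcases lt_or_gt_of_ne hi.2.1 with h2 | h2
        · have e1 := htri a i b h1 h2 (Or.inr (Or.inl rfl))
          have e2 := htri a i c h1 (h2.trans hbc) (Or.inr (Or.inl rfl))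
          have e3 := htri i b c h2 hbc (Or.inl rfl)
          have e4 := SS.coc s a i b c h1.le h2.le hbc.le
          linarith
        · rcases lt_or_gt_of_ne hi.2.2 with h3 | h3
          · have e1 := htri a b i hab h2 (Or.inr (Or.inr rfl))
            have e2 := htri a i c h1 h3 (Or.inr (Or.inl rfl))
            have e3 := htri b i c h2 h3 (Or.inr (Or.inl rfl))
            have e4 := SS.coc s a b i c hab.le h2.le h3.le
            linarith
          · have e1 := htri a b i hab h2 (Or.inr (Or.inr rfl))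
            have e2 := htri a c i (hab.trans hbc) h3 (Or.inr (Or.inr rfl))
            have e3 := htri b c i hbc h3 (Or.inr (Or.inr rfl))
            have e4 := SS.coc s a b c i hab.le hbc.le h3.le
            linarith
  · intro j hj a b hab
    have h1 : vt (SSet.horn.face i j hj) a < vt (SSet.horn.face i j hj) b := by
      rw [vt_face, vt_face]
      exact (Fin.strictMono_succAbove j) hab
    rw [hKx _ a b hab.le h1]
    rfl

theorem lt3 : ∀ a b c : Fin 3, a < b → b < c → a = 0 ∧ b = 1 ∧ c = 2 := by decide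
theorem lt2 : ∀ a b : Fin 2, a < b → a = 0 ∧ b = 1 := by decide
theorem ne31 : ∀ j : Fin 3, j ≠ 1 → j = 0 ∨ j = 2 := by decide
theorem ne32 : ∀ j : Fin 3, j ≠ 2 → j = 0 ∨ j = 1 := by decide
theorem pos3 : ∀ j : Fin 3, 0 < j → j = 1 ∨ j = 2 := by decide
theorem pos2 : ∀ j : Fin 2, 0 < j → j = 1 := by decide

theorem fill_zero (f : (SSet.horn.{0} (0 + 1) (1 : Fin 2) : SSet.{0}) ⟶ E)
    (s : S _⦋0 + 1⦌) (hc : Compat f s) :
    ∃ e : E _⦋0 + 1⦌, p.app _ e = s ∧
        ∀ (j : Fin 2) (hj : j ≠ 1), E.δ j e = f.app _ (SSet.horn.face 1 j hj) := by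
  refine fill_of f s hc (fun _ _ => 0) (fun _ _ _ => rfl) (fun _ _ _ _ => rfl) ?_ ?_
  · intro a b c h1 h2
    omega
  · intro j hj a b hab
    omega

theorem fill_one {i : Fin 3} (hi : 0 < i)
    (f : (SSet.horn.{0} (1 + 1) i : SSet.{0}) ⟶ E)
    (s : S _⦋1 + 1⦌) (hc : Compat f s) :
    ∃ e : E _⦋1 + 1⦌, p.app _ e = s ∧
        ∀ (j : Fin 3) (hj : j ≠ i), E.δ j e = f.app _ (SSet.horn.face i j hj) := by
  have hvert : ∀ (j : Fin 3) (hj : j ≠ i) (a : Fin 2),
      (fv f (SSet.horn.face i j hj)).v a = SS.v s (j.succAbove a) := by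
    intro j hj a
    exact congrArg (fun y : SS 1 => y.v a) (hc 1 (SSet.horn.face i j hj))
  have hmono := SS.mono s
  have h0i : (0 : Fin 3) ≠ i := hi.ne
  obtain rfl | rfl := pos3 i hi
  · -- inner horn
    set f0 := fv f (SSet.horn.face 1 0 h0i) with hf0
    set f2 := fv f (SSet.horn.face 1 2 (by decide)) with hf2
    refine fill_of f s hc (fun a b => if a = 0 ∧ b = 1 then f2.k 0 1 else
      if a = 1 ∧ b = 2 then f0.k 0 1 else
      if a = 0 ∧ b = 2 then f2.k 0 1 + f0.k 0 1 - SS.s s 0 1 2 else 0) ?_ ?_ ?_ ?_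
    · intro a b hab
      fin_cases a <;> fin_cases b <;> simp at hab ⊢
    · intro a b hab hv
      have e1 : SS.v s 0 = true → f2.k 0 1 = 0 := fun h => f2.vc 0 1 ((hvert 2 _ 0).trans h)
      have e2 : SS.v s 1 = true → f0.k 0 1 = 0 := fun h => f0.vc 0 1 ((hvert 0 _ 0).trans h)
      have e3 : SS.v s 0 = true → SS.v s 1 = true := fun h =>
        top_le_iff.1 (by have := hmono (show (0 : Fin 3) ≤ 1 by decide); rw [h] at this; exact this)
      fin_cases a <;> fin_cases b <;> simp at hab hv ⊢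
      · exact e1 hv
      · rw [e1 hv, e2 (e3 hv), SS.vc s 0 1 2 hv]; rfl
      · exact e2 hv
    · intro a b c h1 h2
      obtain ⟨rfl, rfl, rfl⟩ := lt3 a b c h1 h2
      simp
    · intro j hj a b hab
      obtain ⟨rfl, rfl⟩ := lt2 a b hab
      obtain rfl | rfl := ne31 j hj
      · exact (rfl : f0.k 0 1 = f0.k 0 1)
      · exact (rfl : f2.k 0 1 = f2.k 0 1)
  · -- the horn `Λ[2, 2]`
    set f0 := fv f (SSet.horn.face 2 0 h0i) with hf0
    set f1 := fv f (SSet.horn.face 2 1 (by decide)) with hf1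
    refine fill_of f s hc (fun a b => if a = 0 ∧ b = 1 then SS.s s 0 1 2 + f1.k 0 1 - f0.k 0 1 else
      if a = 1 ∧ b = 2 then f0.k 0 1 else
      if a = 0 ∧ b = 2 then f1.k 0 1 else 0) ?_ ?_ ?_ ?_
    · intro a b hab
      fin_cases a <;> fin_cases b <;> simp at hab ⊢
    · intro a b hab hv
      have e1 : SS.v s 0 = true → f1.k 0 1 = 0 := fun h => f1.vc 0 1 ((hvert 1 _ 0).trans h)
      have e2 : SS.v s 1 = true → f0.k 0 1 = 0 := fun h => f0.vc 0 1 ((hvert 0 _ 0).trans h)
      have e3 : SS.v s 0 = true → SS.v s 1 = true := fun h =>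
        top_le_iff.1 (by have := hmono (show (0 : Fin 3) ≤ 1 by decide); rw [h] at this; exact this)
      fin_cases a <;> fin_cases b <;> simp at hab hv ⊢
      · rw [e1 hv, e2 (e3 hv), SS.vc s 0 1 2 hv]; rfl
      · exact e1 hv
      · exact e2 hv
    · intro a b c h1 h2
      obtain ⟨rfl, rfl, rfl⟩ := lt3 a b c h1 h2
      simp
    · intro j hj a b hab
      obtain ⟨rfl, rfl⟩ := lt2 a b hab
      obtain rfl | rfl := ne32 j hj
      · exact (rfl : f0.k 0 1 = f0.k 0 1)
      · exact (rfl : f1.k 0 1 = f1.k 0 1)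

end fill

theorem p_rightFibration : IsRightFibration p := by
  intro n i hi
  apply hasLift
  intro f s hc
  have hc' : Compat f s := fun m x => hc m x
  rcases Nat.lt_or_ge n 2 with hn | hn
  · interval_cases n
    · obtain rfl := pos2 i hi
      exact fill_zero f s hc'
    · exact fill_one hi f s hc'
  · exact fill_big f s hn hc'

end Pool.Agent.R794.Gerbe
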