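import Pool.Agent.R794.Inj

set_option autoImplicit false

namespace Pool.Agent.R794.Gerbe

open CategoryTheory Simplicial Opposite Limits
open Pool.Agent.R794.HoTT
open SSet.Truncated (HomotopyCategory)

/-- the homotopy category -/
abbrev HoC (X : SSet.{0}) : Type := ((SSet.truncation 2).obj X).HomotopyCategory

/-- the object given by a vertex -/
abbrev mk {X : SSet.{0}} (x : X _⦋0⦌) : HoC X :=
  HomotopyCategory.mk (V := (SSet.truncation 2).obj X) x

/-- the morphism given by an edge -/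
abbrev hm {X : SSet.{0}} {x y : X _⦋0⦌} (e : SSet.Edge x y) : mk x ⟶ mk y :=
  HomotopyCategory.homMk (V := (SSet.truncation 2).obj X) e.toTruncated

theorem hm_comp {X : SSet.{0}} {x y z : X _⦋0⦌} {e : SSet.Edge x y} {e' : SSet.Edge y z}
    {e'' : SSet.Edge x z} (h : SSet.Edge.CompStruct e e' e'') : hm e ≫ hm e' = hm e'' :=
  HomotopyCategory.homMk_comp_homMk h.toTruncated

theorem exists_edge {X : SSet.{0}}
    (hV : ∀ {x₀ x₁ x₂ : X _⦋0⦌} (e₀₁ : SSet.Edge x₀ x₁) (e₁₂ : SSet.Edge x₁ x₂),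
      ∃ e₀₂ : SSet.Edge x₀ x₂, Nonempty (SSet.Edge.CompStruct e₀₁ e₁₂ e₀₂))
    {x y : X _⦋0⦌} (f : mk x ⟶ mk y) :
    ∃ e : SSet.Edge x y, f = hm e := by
  let W : MorphismProperty (HoC X) := fun A B f =>
    ∃ e : SSet.Edge (X := X) A.as.as B.as.as, f = hm e
  have hid : W.ContainsIdentities := ⟨fun A => ⟨SSet.Edge.id _, by
    symm
    exact HomotopyCategory.homMk_id _⟩⟩
  have hcomp : W.IsStableUnderComposition := ⟨fun {A B C} f g hf hg => by
    obtain ⟨e, rfl⟩ := hf
    obtain ⟨e', rfl⟩ := hg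
    obtain ⟨e'', ⟨h⟩⟩ := hV e e'
    exact ⟨e'', hm_comp h⟩⟩
  have hmul : W.IsMultiplicative := {}
  have h := HomotopyCategory.morphismProperty_eq_top (W := W) (fun e => ⟨SSet.Edge.ofTruncated e, rfl⟩)
  have h2 : W f := by rw [h]; trivial
  exact h2

/-! ### The homotopy category of `S` -/

theorem SS.ext01 {n : ℕ} (hn : n < 2) {x y : SS n} (h : x.v = y.v) : x = y := by
  apply SS.ext h
  funext i j l
  have : ¬ (i < j ∧ j < l) := by
    rintro ⟨h1, h2⟩
    omega
  rw [x.nz _ _ _ this, y.nz _ _ _ this]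

/-- the simplex of `S` with trivial cocycle -/
def SS.triv {n : ℕ} (v : Fin (n + 1) → Bool) (hv : Monotone v) : SS n where
  v := v
  s _ _ _ := 0
  mono := hv
  nz _ _ _ _ := rfl
  vd _ _ _ _ := rfl
  vc _ _ _ _ := rfl
  coc _ _ _ _ _ _ _ := rfl

theorem S_src {x y : S _⦋0⦌} (e : SSet.Edge x y) : SS.v x 0 = SS.v e.edge 0 :=
  (congrArg (fun z : SS 0 => z.v 0) e.src_eq).symm

theorem S_tgt {x y : S _⦋0⦌} (e : SSet.Edge x y) : SS.v y 0 = SS.v e.edge 1 :=
  (congrArg (fun z : SS 0 => z.v 0) e.tgt_eq).symm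

theorem S_edge_le {x y : S _⦋0⦌} (e : SSet.Edge x y) : SS.v x 0 ≤ SS.v y 0 := by
  rw [S_src e, S_tgt e]
  exact SS.mono e.edge (by decide)

instance S_edge_subsingleton (x y : S _⦋0⦌) : Subsingleton (SSet.Edge x y) := ⟨fun e e' => by
  apply SSet.Edge.ext
  apply SS.ext01 (by decide)
  funext a
  fin_cases a
  · exact (S_src e).symm.trans (S_src e')
  · exact (S_tgt e).symm.trans (S_tgt e')⟩

/-- the edge of `S` from `x` to `y` -/
def S_edge (x y : S _⦋0⦌) (h : SS.v x 0 ≤ SS.v y 0) : SSet.Edge x y :=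
  SSet.Edge.mk (SS.triv ![SS.v x 0, SS.v y 0] (by
      intro a b hab
      fin_cases a <;> fin_cases b <;> simp_all))
    (by
      apply SS.ext01 (by decide)
      funext a
      fin_cases a
      rfl)
    (by
      apply SS.ext01 (by decide)
      funext a
      fin_cases a
      rfl)

theorem S_comp {x y z : S _⦋0⦌} (e : SSet.Edge x y) (e' : SSet.Edge y z) :
    ∃ e'' : SSet.Edge x z, Nonempty (SSet.Edge.CompStruct e e' e'') := by
  have h1 := S_edge_le e
  have h2 := S_edge_le e'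
  refine ⟨S_edge x z (h1.trans h2), ⟨?_⟩⟩
  rw [Subsingleton.elim e (S_edge x y h1), Subsingleton.elim e' (S_edge y z h2)]
  have h3 := h1.trans h2
  refine SSet.Edge.CompStruct.mk (SS.triv ![SS.v x 0, SS.v y 0, SS.v z 0] (by
      intro a b hab
      fin_cases a <;> fin_cases b <;> simp_all)) ?_ ?_ ?_
  · apply SS.ext01 (by decide)
    funext a
    fin_cases a <;> rfl
  · apply SS.ext01 (by decide)
    funext a
    fin_cases a <;> rfl
  · apply SS.ext01 (by decide)
    funext a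
    fin_cases a <;> rfl

theorem mk_rep {X : SSet.{0}} (A : HoC X) : ∃ x : X _⦋0⦌, A = mk x :=
  ⟨A.as.as, rfl⟩

instance S_thin (A B : HoC S) : Subsingleton (A ⟶ B) := by
  obtain ⟨x, rfl⟩ := mk_rep A
  obtain ⟨y, rfl⟩ := mk_rep B
  constructor
  intro f g
  obtain ⟨e, rfl⟩ := exists_edge S_comp f
  obtain ⟨e', rfl⟩ := exists_edge S_comp g
  rw [Subsingleton.elim e e']

/-- the vertex `d` -/
def Sd : S _⦋0⦌ := SS.triv (fun _ => false) monotone_const

/-- the vertex `c` -/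
def Sc : S _⦋0⦌ := SS.triv (fun _ => true) monotone_const

theorem over_initial {D : Type} [Category.{0} D] [Quiver.IsThin D] (b : D)
    (hb : ∀ x : D, Nonempty (b ⟶ x)) (U : D) : ∃ X : Over U, Nonempty (IsInitial X) := by
  refine ⟨Over.mk (hb U).some, ⟨IsInitial.ofUniqueHom (fun Y => Over.homMk (hb Y.left).some
    (Subsingleton.elim _ _)) ?_⟩⟩
  intro Y m
  ext
  exact Subsingleton.elim _ _

theorem S_over_initial (U : HoC S) : ∃ X : Over U, Nonempty (IsInitial X) := by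
  apply over_initial (mk Sd)
  intro A
  obtain ⟨x, rfl⟩ := mk_rep A
  exact ⟨hm (S_edge Sd x (Bool.false_le _))⟩

end Pool.Agent.R794.Gerbe
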