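import Mathlib

/-!
# Internal injectivity and HoTT-injectivity in presheaf ∞-toposes

Let `S` be a small simplicial set and `P(S) = Fun(Sᵒᵖ, Spaces)` the ∞-topos of presheaves of
spaces on the ∞-category presented by `S`. We use the following standard description of `P(S)`
(Lurie, Higher Topos Theory, 2.2.1, 5.1.1, 5.1.6).

* The objects `X` of `P(S)` are presented by the right fibrations `p : E ⟶ S`
  (straightening/unstraightening, the contravariant model structure), and for such `X` the slice
  `P(S)/X` is `P(E)`, in such a way that base change `P(S) → P(S)/X` is restriction along `p`.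
* A presheaf on `E` with values in sets is the same as a presheaf of sets on the homotopy category
  `ho E`. So the `1`-topos of `0`-truncated objects of `P(S)/X = P(E)` is the category of presheaves
  of sets on `ho E`, and the base change functor on `0`-truncated objects is restriction along
  `ho E ⥤ ho S`.

The ring object is the constant one with value a ring `k`; its modules in presheaves of sets on `D`
are the presheaves of `k`-modules on `D`.
-/

set_option autoImplicit false

namespace Pool.Agent.R794.HoTT

open CategoryTheory Simplicial Opposite

/-- Internal injectivity of a presheaf `I` of `k`-modules on `D`, that is, of a module over the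
constant ring `k` in the topos of presheaves of sets on `D`: for each monomorphism `i : A ⟶ B` of
modules the map of internal homs `Hom(B, I) ⟶ Hom(A, I)` is an effective epimorphism.

The sections of `Hom(A, I)` over an object `U` of `D` are the morphisms of presheaves of modules
`A|_U ⟶ I|_U` between the restrictions to the slice category `D/U`, and a map of presheaves of
sets is an effective epimorphism if and only if it is surjective on the sections over each `U`. -/
def InternallyInjective {k : Type} [Ring k] {D : Type} [Category.{0} D]
    (I : Dᵒᵖ ⥤ ModuleCat.{0} k) : Prop :=
  ∀ (A B : Dᵒᵖ ⥤ ModuleCat.{0} k) (i : A ⟶ B), Mono i → ∀ (U : D)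
    (f : (Over.forget U).op ⋙ A ⟶ (Over.forget U).op ⋙ I),
    ∃ g : (Over.forget U).op ⋙ B ⟶ (Over.forget U).op ⋙ I,
      Functor.whiskerLeft (Over.forget U).op i ≫ g = f

/-- Right fibrations of simplicial sets: the right lifting property with respect to the horn
inclusions `Λ[m, i] ⟶ Δ[m]` for `m ≥ 1` and `0 < i ≤ m` (where `m = n + 1`). -/
def IsRightFibration {E S : SSet.{0}} (p : E ⟶ S) : Prop :=
  ∀ (n : ℕ) (i : Fin (n + 2)), 0 < i → HasLiftingProperty (SSet.horn.{0} (n + 1) i).ι p

/-- HoTT-injectivity, in the ∞-topos `P(S)` of presheaves of spaces on the simplicial set `S`, of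
a module `I` over the constant ring `k` in the `1`-topos of `0`-truncated objects of `P(S)`, that
is, of a presheaf of `k`-modules on the homotopy category `ho S`: for every object `X` of `P(S)`,
presented by a right fibration `p : E ⟶ S`, the base change of `I` to `P(S)/X = P(E)`, which is the
restriction of `I` along `ho E ⥤ ho S`, is internally injective. -/
def HoTTInjective {k : Type} [Ring k] (S : SSet.{0})
    (I : (SSet.hoFunctor.obj S)ᵒᵖ ⥤ ModuleCat.{0} k) : Prop :=
  ∀ (E : SSet.{0}) (p : E ⟶ S), IsRightFibration p →
    InternallyInjective ((SSet.hoFunctor.map p).toFunctor.op ⋙ I)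

end Pool.Agent.R794.HoTT
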