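import Pool.Agent.R794.Gerbe

set_option autoImplicit false

namespace Pool.Agent.R794.Gerbe

open CategoryTheory Simplicial Opposite Limits
open Pool.Agent.R794.HoTT

theorem internallyInjective_const {k : Type} [Ring k] {D : Type} [Category.{0} D]
    (hD : ∀ U : D, ∃ X : Over U, Nonempty (IsInitial X)) (M : ModuleCat.{0} k) [Injective M]
    (I : Dᵒᵖ ⥤ ModuleCat.{0} k) (hI : I = (Functor.const Dᵒᵖ).obj M) :
    InternallyInjective I := by
  subst hI
  intro A B i hi U f
  obtain ⟨X, ⟨hX⟩⟩ := hD U
  have : ∀ Y, Mono (i.app Y) := (NatTrans.mono_iff_mono_app i).1 hi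
  have hm : Mono (i.app (op X.left)) := this _
  let fX : A.obj (op X.left) ⟶ M := f.app (op X)
  let g0 : B.obj (op X.left) ⟶ M := Injective.factorThru fX (i.app (op X.left))
  have hg0 : i.app (op X.left) ≫ g0 = fX := Injective.comp_factorThru _ _
  refine ⟨{ app := fun Y => B.map (hX.to Y.unop).left.op ≫ g0, naturality := ?_ }, ?_⟩
  · intro Y Z φ
    have h1 : hX.to Z.unop ≫ φ.unop = hX.to Y.unop := hX.hom_ext _ _
    have h2 : (hX.to Z.unop).left ≫ φ.unop.left = (hX.to Y.unop).left :=
      congrArg (fun ψ => ψ.left) h1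
    have h3 : B.map (hX.to Y.unop).left.op
        = B.map φ.unop.left.op ≫ B.map (hX.to Z.unop).left.op := by
      rw [← B.map_comp, ← op_comp, h2]
    change B.map φ.unop.left.op ≫ B.map (hX.to Z.unop).left.op ≫ g0
      = (B.map (hX.to Y.unop).left.op ≫ g0) ≫ 𝟙 M
    rw [h3, Category.comp_id, Category.assoc]
  · ext1
    funext Y
    have h1 := f.naturality (hX.to Y.unop).op
    simp only [Functor.comp_map, Functor.op_map, Over.forget_map, Functor.const_obj_map,
      Quiver.Hom.unop_op] at h1
    simp only [NatTrans.comp_app, Functor.whiskerLeft_app]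
    change i.app (op Y.unop.left) ≫ B.map (hX.to Y.unop).left.op ≫ g0 = f.app Y
    rw [← NatTrans.naturality_assoc, hg0]
    exact h1.trans (Category.comp_id _)

end Pool.Agent.R794.Gerbe
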